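import Mathlib

/-!
HR project (MP_58257a_co, S08871), row CB (helper22): the binomial bound.
-/

set_option autoImplicit false

namespace Pool.Agent.helper78.HR

open Finset

/-- row CB. Binomial bound. -/
theorem choose_bd (n N : ℕ) (hN : 1 ≤ N) (hn : N ≤ n) :
    ((n.choose N : ℕ) : ℝ) ≤ Real.exp (N * (1 + Real.log (n / N))) := by
  have h1 : ((n.choose N : ℕ) : ℝ) ≤ (n : ℝ) ^ N / (N.factorial : ℝ) := Nat.choose_le_pow_div N n
  have h2 := Real.pow_div_factorial_le_exp (N : ℝ) (by positivity) N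
  have hf : (0 : ℝ) < N.factorial := by exact_mod_cast Nat.factorial_pos N
  have hNp : (0 : ℝ) < N := by exact_mod_cast hN
  have hnp : (0 : ℝ) < n := by exact_mod_cast (lt_of_lt_of_le hN hn)
  have h3 : (N : ℝ) ^ N ≤ Real.exp N * N.factorial := by
    rw [div_le_iff₀ hf] at h2
    exact h2
  have h4 : Real.exp (N * (1 + Real.log (n / N))) = (Real.exp 1 * n / N) ^ N := by
    rw [Real.exp_nat_mul, Real.exp_add, Real.exp_log (by positivity), mul_div_assoc]
  rw [h4]
  refine h1.trans ?_
  rw [div_pow, mul_pow, ← Real.exp_nat_mul, mul_one, div_le_div_iff₀ hf (by positivity)]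
  have := mul_le_mul_of_nonneg_left h3 (pow_nonneg (Nat.cast_nonneg (α := ℝ) n) N)
  linarith

end Pool.Agent.helper78.HR
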