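import Pool.Agent.helper22.HR.DE

/-!
HR project (MP_58257a_co, S08871), row CT (helper22): the number of the families of `N` pairwise disjoint tight boxes.
-/

set_option autoImplicit false

namespace Pool.Agent.helper78.HR

open Finset

/-- row CT (uses decode). The number of families of `N` pairwise disjoint tight boxes. -/
theorem count {ι : Type*} [Fintype ι] [DecidableEq ι] (x y : ι → ℤ) (hx : Function.Injective x)
    (hy : Function.Injective y) (N : ℕ) (F : Finset (Finset (Fm ι)))
    (h : ∀ D ∈ F, (∀ f ∈ D, Fr x y f) ∧ Disj x y D ∧ D.card = N) :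
    F.card ≤ ((Fintype.card ι).choose N) ^ 4 := by
  let C : Finset (Finset ι) := powersetCard N univ
  have hC : (C ×ˢ C ×ˢ C ×ˢ C).card = ((Fintype.card ι).choose N) ^ 4 := by
    simp only [C, card_product, card_powersetCard, card_univ]
    ring
  rw [← hC]
  apply card_le_card_of_injOn (fun D => (D.image (fun f => f.1), D.image (fun f => f.2.1), D.image (fun f => f.2.2.1), D.image (fun f => f.2.2.2)))
  · intro D hD
    obtain ⟨h1, h2, h3⟩ := h D hD
    have aux : ∀ p : Fm ι → ι, (∀ f ∈ D, In x y f (x (p f), y (p f))) → (D.image p) ∈ C := by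
      intro p hp
      rw [mem_powersetCard]
      refine ⟨subset_univ _, ?_⟩
      rw [card_image_of_injOn, h3]
      intro f hf g hg hfg
      refine hrDE_dj h2 hf hg (x (p f), y (p f)) (hp f hf) ?_
      have hfg' : p f = p g := hfg
      rw [hfg']
      exact hp g hg
    simp only [coe_product, Set.mem_prod, mem_coe]
    exact ⟨aux _ fun f hf => (h1 f hf).1, aux _ fun f hf => (h1 f hf).2.1, aux _ fun f hf => (h1 f hf).2.2.1, aux _ fun f hf => (h1 f hf).2.2.2⟩
  · intro D1 hD1 D2 hD2 he
    simp only [Prod.mk.injEq] at he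
    obtain ⟨e1, e2, e3, e4⟩ := he
    obtain ⟨a1, a2, -⟩ := h D1 hD1
    obtain ⟨b1, b2, -⟩ := h D2 hD2
    exact decode x y hx hy D1 D2 a1 b1 a2 b2 e1 e2 e3 e4

end Pool.Agent.helper78.HR
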