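import Mathlib

/-!
# MP_58257a_co (S08871), Step 2 of HR_PROOF_helper78: a family of pairwise disjoint tight boxes is determined by its
four sets of left, right, bottom and top coordinates (helper22)
-/

set_option autoImplicit false

namespace HRC

/-- a box `[l, r] x [b, t]` of grid points. -/
structure Bx where
  l : ℕ
  r : ℕ
  b : ℕ
  t : ℕ
deriving DecidableEq

/-- the grid point `z` is in the box `R`. -/
def In (z : ℕ × ℕ) (R : Bx) : Prop := R.l ≤ z.1 ∧ z.1 ≤ R.r ∧ R.b ≤ z.2 ∧ z.2 ≤ R.t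

/-- tight: a point of `P` on each side. -/
structure Tight (P : Set (ℕ × ℕ)) (R : Bx) : Prop where
  lf : ∃ p ∈ P, In p R ∧ p.1 = R.l
  rt : ∃ p ∈ P, In p R ∧ p.1 = R.r
  bt : ∃ p ∈ P, In p R ∧ p.2 = R.b
  tp : ∃ p ∈ P, In p R ∧ p.2 = R.t

/-- the hypotheses for a family. -/
structure Fam (P : Set (ℕ × ℕ)) (F : Set Bx) : Prop where
  ti : ∀ R ∈ F, Tight P R
  dj : ∀ R ∈ F, ∀ Q ∈ F, (∃ z, In z R ∧ In z Q) → R = Q

/-- same four sets. -/
structure Same (F G : Set Bx) : Prop where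
  l : ∀ R ∈ F, ∃ Q ∈ G, Q.l = R.l
  r : ∀ R ∈ F, ∃ Q ∈ G, Q.r = R.r
  b : ∀ R ∈ F, ∃ Q ∈ G, Q.b = R.b
  t : ∀ R ∈ F, ∃ Q ∈ G, Q.t = R.t

/-- the claim at the column `x`. -/
def SS (P : Set (ℕ × ℕ)) (F G : Set Bx) (x : ℕ) : Prop := ∀ R ∈ F, ∀ R' ∈ G, R.l = R'.l →
  (R.r ≤ x → R'.r = R.r) ∧ (∀ p ∈ P, In p R → p.2 = R.b → p.1 ≤ x → R'.b = R.b) ∧ (∀ p ∈ P, In p R → p.2 = R.t → p.1 ≤ x → R'.t = R.t)

theorem step (P : Set (ℕ × ℕ)) (hX : ∀ p ∈ P, ∀ q ∈ P, p.1 = q.1 → p = q) (hY : ∀ p ∈ P, ∀ q ∈ P, p.2 = q.2 → p = q)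
    (F G : Set Bx) (hF : Fam P F) (hG : Fam P G) (hFG : Same F G) (hGF : Same G F) (x : ℕ)
    (ih : ∀ x' < x, SS P F G x' ∧ SS P G F x') : SS P F G x := by
  intro R hR R' hR' hl
  -- left points
  obtain ⟨a, haP, haR, hal⟩ := (hF.ti R hR).lf
  have haR' : In a R' := by
    obtain ⟨a', ha'P, ha'R, ha'l⟩ := (hG.ti R' hR').lf
    have : a' = a := hX a' ha'P a haP (by omega)
    rw [← this]; exact ha'R
  obtain ⟨a1, a2, a3, a4⟩ := haR
  obtain ⟨a1', a2', a3', a4'⟩ := haR'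
  -- general facts about a second pair
  have pair : ∀ Q ∈ F, ∀ Q' ∈ G, Q.l = Q'.l → Q' ≠ R' → Q ≠ R ∧ ∃ c ∈ P, In c Q ∧ In c Q' ∧ c.1 = Q.l ∧ c.2 ≠ a.2 := by
    intro Q hQ Q' hQ' hl2 hne
    obtain ⟨c, hcP, hcQ, hcl⟩ := (hF.ti Q hQ).lf
    have hcQ' : In c Q' := by
      obtain ⟨c', hc'P, hc'Q, hc'l⟩ := (hG.ti Q' hQ').lf
      have : c' = c := hX c' hc'P c hcP (by omega)
      rw [← this]; exact hc'Q
    have h1 : c.2 ≠ a.2 := by
      intro h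
      have : c = a := hY c hcP a haP h
      apply hne
      exact hG.dj Q' hQ' R' hR' ⟨a, by rw [← this]; exact hcQ', ⟨a1', a2', a3', a4'⟩⟩
    refine ⟨?_, c, hcP, hcQ, hcQ', hcl, h1⟩
    intro h
    apply h1
    have : c = a := hX c hcP a haP (by rw [hcl, hal, h])
    rw [this]
  -- bottom
  have hb : ∀ p ∈ P, In p R → p.2 = R.b → p.1 ≤ x → R'.b = R.b := by
    intro p hp hpR hpb hpx
    rcases Nat.lt_or_ge p.1 x with hlt | hge
    · exact ((ih p.1 hlt).1 R hR R' hR' hl).2.1 p hp hpR hpb le_rfl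
    have hx : p.1 = x := le_antisymm hpx hge
    obtain ⟨Q', hQ', hQb⟩ := hFG.b R hR
    obtain ⟨Q, hQ, hQl⟩ := hGF.l Q' hQ'
    by_cases hne : Q' = R'
    · rw [← hne]; exact hQb
    exfalso
    obtain ⟨hne2, c, hcP, hcQ, hcQ', hcl, hca⟩ := pair Q hQ Q' hQ' hQl hne
    have hpQ' : In p Q' := by
      obtain ⟨q, hqP, hqQ, hqb⟩ := (hG.ti Q' hQ').bt
      have : q = p := hY q hqP p hp (by omega)
      rw [← this]; exact hqQ
    have e1 : x ≤ Q.r := by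
      by_contra hc
      have h1 := ((ih Q.r (by omega)).1 Q hQ Q' hQ' hQl).1 le_rfl
      have := hpQ'.2.1
      omega
    have e2 : x ≤ R'.r := by
      by_contra hc
      have h1 := ((ih R'.r (by omega)).2 R' hR' R hR hl.symm).1 le_rfl
      have := hpR.2.1
      omega
    have := hpR.1
    have := hpQ'.1
    have := hpQ'.2.1
    have := hpR.2.1
    obtain ⟨c1, c2, c3, c4⟩ := hcQ
    obtain ⟨c1', c2', c3', c4'⟩ := hcQ'
    rcases Nat.lt_or_ge a.2 c.2 with h | h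
    · exact hne (hG.dj Q' hQ' R' hR' ⟨(x, a.2), ⟨by show Q'.l ≤ x; omega, by show x ≤ Q'.r; omega, by show Q'.b ≤ a.2; omega, by show a.2 ≤ Q'.t; omega⟩,
        ⟨by show R'.l ≤ x; omega, by show x ≤ R'.r; omega, by show R'.b ≤ a.2; omega, by show a.2 ≤ R'.t; omega⟩⟩)
    · exact hne2 (hF.dj Q hQ R hR ⟨(x, c.2), ⟨by show Q.l ≤ x; omega, by show x ≤ Q.r; omega, by show Q.b ≤ c.2; omega, by show c.2 ≤ Q.t; omega⟩,
        ⟨by show R.l ≤ x; omega, by show x ≤ R.r; omega, by show R.b ≤ c.2; omega, by show c.2 ≤ R.t; omega⟩⟩)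
  -- top
  have ht : ∀ p ∈ P, In p R → p.2 = R.t → p.1 ≤ x → R'.t = R.t := by
    intro p hp hpR hpb hpx
    rcases Nat.lt_or_ge p.1 x with hlt | hge
    · exact ((ih p.1 hlt).1 R hR R' hR' hl).2.2 p hp hpR hpb le_rfl
    have hx : p.1 = x := le_antisymm hpx hge
    obtain ⟨Q', hQ', hQb⟩ := hFG.t R hR
    obtain ⟨Q, hQ, hQl⟩ := hGF.l Q' hQ'
    by_cases hne : Q' = R'
    · rw [← hne]; exact hQb
    exfalso
    obtain ⟨hne2, c, hcP, hcQ, hcQ', hcl, hca⟩ := pair Q hQ Q' hQ' hQl hne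
    have hpQ' : In p Q' := by
      obtain ⟨q, hqP, hqQ, hqb⟩ := (hG.ti Q' hQ').tp
      have : q = p := hY q hqP p hp (by omega)
      rw [← this]; exact hqQ
    have e1 : x ≤ Q.r := by
      by_contra hc
      have h1 := ((ih Q.r (by omega)).1 Q hQ Q' hQ' hQl).1 le_rfl
      have := hpQ'.2.1
      omega
    have e2 : x ≤ R'.r := by
      by_contra hc
      have h1 := ((ih R'.r (by omega)).2 R' hR' R hR hl.symm).1 le_rfl
      have := hpR.2.1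
      omega
    have := hpR.1
    have := hpQ'.1
    have := hpQ'.2.1
    have := hpR.2.1
    obtain ⟨c1, c2, c3, c4⟩ := hcQ
    obtain ⟨c1', c2', c3', c4'⟩ := hcQ'
    rcases Nat.lt_or_ge a.2 c.2 with h | h
    · exact hne2 (hF.dj Q hQ R hR ⟨(x, c.2), ⟨by show Q.l ≤ x; omega, by show x ≤ Q.r; omega, by show Q.b ≤ c.2; omega, by show c.2 ≤ Q.t; omega⟩,
        ⟨by show R.l ≤ x; omega, by show x ≤ R.r; omega, by show R.b ≤ c.2; omega, by show c.2 ≤ R.t; omega⟩⟩)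
    · exact hne (hG.dj Q' hQ' R' hR' ⟨(x, a.2), ⟨by show Q'.l ≤ x; omega, by show x ≤ Q'.r; omega, by show Q'.b ≤ a.2; omega, by show a.2 ≤ Q'.t; omega⟩,
        ⟨by show R'.l ≤ x; omega, by show x ≤ R'.r; omega, by show R'.b ≤ a.2; omega, by show a.2 ≤ R'.t; omega⟩⟩)
  refine ⟨?_, hb, ht⟩
  -- right
  intro hrx
  rcases Nat.lt_or_ge R.r x with hlt | hge
  · exact ((ih R.r hlt).1 R hR R' hR' hl).1 le_rfl
  have hx : R.r = x := le_antisymm hrx hge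
  obtain ⟨Q', hQ', hQr⟩ := hFG.r R hR
  obtain ⟨Q, hQ, hQl⟩ := hGF.l Q' hQ'
  by_cases hne : Q' = R'
  · rw [← hne]; exact hQr
  exfalso
  obtain ⟨hne2, c, hcP, hcQ, hcQ', hcl, hca⟩ := pair Q hQ Q' hQ' hQl hne
  obtain ⟨p, hp, hpR, hpr⟩ := (hF.ti R hR).rt
  have hpQ' : In p Q' := by
    obtain ⟨q, hqP, hqQ, hqb⟩ := (hG.ti Q' hQ').rt
    have : q = p := hX q hqP p hp (by omega)
    rw [← this]; exact hqQ
  have e1 : x ≤ Q.r := by
    by_contra hc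
    have h1 := ((ih Q.r (by omega)).1 Q hQ Q' hQ' hQl).1 le_rfl
    omega
  have e2 : x ≤ R'.r := by
    by_contra hc
    have h1 := ((ih R'.r (by omega)).2 R' hR' R hR hl.symm).1 le_rfl
    omega
  obtain ⟨p1, p2, p3, p4⟩ := hpR
  obtain ⟨p1', p2', p3', p4'⟩ := hpQ'
  obtain ⟨c1, c2, c3, c4⟩ := hcQ
  obtain ⟨c1', c2', c3', c4'⟩ := hcQ'
  have cG : ∀ y, R'.b ≤ y → y ≤ R'.t → Q'.b ≤ y → y ≤ Q'.t → False := fun y h1 h2 h3 h4 =>
    hne (hG.dj Q' hQ' R' hR' ⟨(x, y), ⟨by show Q'.l ≤ x; omega, by show x ≤ Q'.r; omega, h3, h4⟩, ⟨by show R'.l ≤ x; omega, by show x ≤ R'.r; omega, h1, h2⟩⟩)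
  have cF : ∀ y, R.b ≤ y → y ≤ R.t → Q.b ≤ y → y ≤ Q.t → False := fun y h1 h2 h3 h4 =>
    hne2 (hF.dj Q hQ R hR ⟨(x, y), ⟨by show Q.l ≤ x; omega, by show x ≤ Q.r; omega, h3, h4⟩, ⟨by show R.l ≤ x; omega, by show x ≤ R.r; omega, h1, h2⟩⟩)
  rcases Nat.lt_or_ge a.2 c.2 with h | h
  · rcases Nat.lt_or_ge a.2 p.2 with h1 | h1
    · rcases Nat.lt_or_ge p.2 c.2 with h2 | h2
      · obtain ⟨u, hu, huR, hut⟩ := (hF.ti R hR).tp
        have h3 := ht u hu huR hut (by have := huR.2.1; omega)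
        exact cG p.2 (by omega) (by omega) (by omega) (by omega)
      · exact cF c.2 (by omega) (by omega) (by omega) (by omega)
    · exact cG a.2 (by omega) (by omega) (by omega) (by omega)
  · rcases Nat.lt_or_ge p.2 a.2 with h1 | h1
    · rcases Nat.lt_or_ge c.2 p.2 with h2 | h2
      · obtain ⟨u, hu, huR, hut⟩ := (hF.ti R hR).bt
        have h3 := hb u hu huR hut (by have := huR.2.1; omega)
        exact cG p.2 (by omega) (by omega) (by omega) (by omega)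
      · exact cF c.2 (by omega) (by omega) (by omega) (by omega)
    · exact cG a.2 (by omega) (by omega) (by omega) (by omega)

theorem SS_all (P : Set (ℕ × ℕ)) (hX : ∀ p ∈ P, ∀ q ∈ P, p.1 = q.1 → p = q) (hY : ∀ p ∈ P, ∀ q ∈ P, p.2 = q.2 → p = q)
    (F G : Set Bx) (hF : Fam P F) (hG : Fam P G) (hFG : Same F G) (hGF : Same G F) (x : ℕ) : SS P F G x ∧ SS P G F x := by
  induction x using Nat.strong_induction_on with
  | _ x ih =>
    exact ⟨step P hX hY F G hF hG hFG hGF x ih, step P hX hY G F hG hF hGF hFG x (fun x' h => (ih x' h).symm)⟩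

theorem sub (P : Set (ℕ × ℕ)) (hX : ∀ p ∈ P, ∀ q ∈ P, p.1 = q.1 → p = q) (hY : ∀ p ∈ P, ∀ q ∈ P, p.2 = q.2 → p = q)
    (F G : Set Bx) (hF : Fam P F) (hG : Fam P G) (hFG : Same F G) (hGF : Same G F) : F ⊆ G := by
  intro R hR
  obtain ⟨R', hR', hl⟩ := hFG.l R hR
  obtain ⟨u, hu, huR, hut⟩ := (hF.ti R hR).tp
  obtain ⟨v, hv, hvR, hvt⟩ := (hF.ti R hR).bt
  obtain ⟨h1, -, -⟩ := (SS_all P hX hY F G hF hG hFG hGF R.r).1 R hR R' hR' hl.symm
  obtain ⟨-, h2, -⟩ := (SS_all P hX hY F G hF hG hFG hGF v.1).1 R hR R' hR' hl.symm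
  obtain ⟨-, -, h3⟩ := (SS_all P hX hY F G hF hG hFG hGF u.1).1 R hR R' hR' hl.symm
  have e1 := h1 le_rfl
  have e2 := h2 v hv hvR hvt le_rfl
  have e3 := h3 u hu huR hut le_rfl
  have : R' = R := by
    cases R; cases R'; simp_all
  rw [← this]; exact hR'

/-- a family of pairwise disjoint tight boxes is determined by its four sets of coordinates. -/
theorem determined (P : Set (ℕ × ℕ)) (hX : ∀ p ∈ P, ∀ q ∈ P, p.1 = q.1 → p = q) (hY : ∀ p ∈ P, ∀ q ∈ P, p.2 = q.2 → p = q)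
    (F G : Set Bx) (hF : Fam P F) (hG : Fam P G) (hFG : Same F G) (hGF : Same G F) : F = G :=
  Set.Subset.antisymm (sub P hX hY F G hF hG hFG hGF) (sub P hX hY G F hG hF hGF hFG)

end HRC
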