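import Pool.Agent.helper22.HR.Count

/-!
# MP_58257a_co (S08871), Steps 2 and 3 of HR_PROOF_helper78: the number of the families of `N` pairwise disjoint tight
boxes, the greedy choice of tokens (helper22)
-/

set_option autoImplicit false

namespace HRC

open Finset

theorem l_inj (P : Set (ℕ × ℕ)) (hX : ∀ p ∈ P, ∀ q ∈ P, p.1 = q.1 → p = q) (F : Finset Bx) (hF : Fam P (F : Set Bx)) :
    Set.InjOn Bx.l (F : Set Bx) := by
  intro R hR Q hQ h
  obtain ⟨a, haP, haR, hal⟩ := (hF.ti R hR).lf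
  obtain ⟨c, hcP, hcQ, hcl⟩ := (hF.ti Q hQ).lf
  have : c = a := hX c hcP a haP (by rw [hcl, hal, h])
  exact hF.dj R hR Q hQ ⟨a, haR, by rw [← this]; exact hcQ⟩

theorem r_inj (P : Set (ℕ × ℕ)) (hX : ∀ p ∈ P, ∀ q ∈ P, p.1 = q.1 → p = q) (F : Finset Bx) (hF : Fam P (F : Set Bx)) :
    Set.InjOn Bx.r (F : Set Bx) := by
  intro R hR Q hQ h
  obtain ⟨a, haP, haR, hal⟩ := (hF.ti R hR).rt
  obtain ⟨c, hcP, hcQ, hcl⟩ := (hF.ti Q hQ).rt
  have : c = a := hX c hcP a haP (by rw [hcl, hal, h])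
  exact hF.dj R hR Q hQ ⟨a, haR, by rw [← this]; exact hcQ⟩

theorem b_inj (P : Set (ℕ × ℕ)) (hY : ∀ p ∈ P, ∀ q ∈ P, p.2 = q.2 → p = q) (F : Finset Bx) (hF : Fam P (F : Set Bx)) :
    Set.InjOn Bx.b (F : Set Bx) := by
  intro R hR Q hQ h
  obtain ⟨a, haP, haR, hal⟩ := (hF.ti R hR).bt
  obtain ⟨c, hcP, hcQ, hcl⟩ := (hF.ti Q hQ).bt
  have : c = a := hY c hcP a haP (by rw [hcl, hal, h])
  exact hF.dj R hR Q hQ ⟨a, haR, by rw [← this]; exact hcQ⟩

theorem t_inj (P : Set (ℕ × ℕ)) (hY : ∀ p ∈ P, ∀ q ∈ P, p.2 = q.2 → p = q) (F : Finset Bx) (hF : Fam P (F : Set Bx)) :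
    Set.InjOn Bx.t (F : Set Bx) := by
  intro R hR Q hQ h
  obtain ⟨a, haP, haR, hal⟩ := (hF.ti R hR).tp
  obtain ⟨c, hcP, hcQ, hcl⟩ := (hF.ti Q hQ).tp
  have : c = a := hY c hcP a haP (by rw [hcl, hal, h])
  exact hF.dj R hR Q hQ ⟨a, haR, by rw [← this]; exact hcQ⟩

theorem same_of_image (F G : Finset Bx) (h1 : F.image Bx.l = G.image Bx.l) (h2 : F.image Bx.r = G.image Bx.r)
    (h3 : F.image Bx.b = G.image Bx.b) (h4 : F.image Bx.t = G.image Bx.t) : Same (F : Set Bx) (G : Set Bx) := by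
  constructor
  · intro R hR
    have h : R.l ∈ G.image Bx.l := by rw [← h1]; exact mem_image_of_mem _ hR
    obtain ⟨Q, hQ, hq⟩ := mem_image.1 h
    exact ⟨Q, hQ, hq⟩
  · intro R hR
    have h : R.r ∈ G.image Bx.r := by rw [← h2]; exact mem_image_of_mem _ hR
    obtain ⟨Q, hQ, hq⟩ := mem_image.1 h
    exact ⟨Q, hQ, hq⟩
  · intro R hR
    have h : R.b ∈ G.image Bx.b := by rw [← h3]; exact mem_image_of_mem _ hR
    obtain ⟨Q, hQ, hq⟩ := mem_image.1 h
    exact ⟨Q, hQ, hq⟩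
  · intro R hR
    have h : R.t ∈ G.image Bx.t := by rw [← h4]; exact mem_image_of_mem _ hR
    obtain ⟨Q, hQ, hq⟩ := mem_image.1 h
    exact ⟨Q, hQ, hq⟩

/-- THE COUNT: at most `C(n,N)^4` families of `N` pairwise disjoint tight boxes in the grid `[0,n)^2`. -/
theorem count (n N : ℕ) (P : Set (ℕ × ℕ)) (hX : ∀ p ∈ P, ∀ q ∈ P, p.1 = q.1 → p = q) (hY : ∀ p ∈ P, ∀ q ∈ P, p.2 = q.2 → p = q)
    (S : Finset (Finset Bx)) (hS : ∀ F ∈ S, F.card = N ∧ Fam P (F : Set Bx) ∧ ∀ R ∈ F, R.r < n ∧ R.t < n) :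
    S.card ≤ (n.choose N) ^ 4 := by
  classical
  let C : Finset (Finset ℕ) := powersetCard N (range n)
  have hC : (C ×ˢ C ×ˢ C ×ˢ C).card = (n.choose N) ^ 4 := by
    simp only [C, card_product, card_powersetCard, card_range]
    ring
  rw [← hC]
  apply card_le_card_of_injOn (fun F => (F.image Bx.l, F.image Bx.r, F.image Bx.b, F.image Bx.t))
  · intro F hF
    obtain ⟨h1, h2, h3⟩ := hS F hF
    have hle : ∀ R ∈ F, R.l ≤ R.r ∧ R.b ≤ R.t := by
      intro R hR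
      obtain ⟨a, -, ha, -⟩ := (h2.ti R hR).lf
      exact ⟨ha.1.trans ha.2.1, ha.2.2.1.trans ha.2.2.2⟩
    simp only [C, coe_product, Set.mem_prod, mem_coe, mem_powersetCard]
    refine ⟨⟨?_, ?_⟩, ⟨?_, ?_⟩, ⟨?_, ?_⟩, ⟨?_, ?_⟩⟩
    · intro x hx
      obtain ⟨R, hR, rfl⟩ := mem_image.1 hx
      have := hle R hR; have := h3 R hR
      exact mem_range.2 (by omega)
    · rw [card_image_of_injOn (l_inj P hX F h2), h1]
    · intro x hx
      obtain ⟨R, hR, rfl⟩ := mem_image.1 hx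
      exact mem_range.2 (h3 R hR).1
    · rw [card_image_of_injOn (r_inj P hX F h2), h1]
    · intro x hx
      obtain ⟨R, hR, rfl⟩ := mem_image.1 hx
      have := hle R hR; have := h3 R hR
      exact mem_range.2 (by omega)
    · rw [card_image_of_injOn (b_inj P hY F h2), h1]
    · intro x hx
      obtain ⟨R, hR, rfl⟩ := mem_image.1 hx
      exact mem_range.2 (h3 R hR).2
    · rw [card_image_of_injOn (t_inj P hY F h2), h1]
  · intro F hF G hG h
    simp only [Prod.mk.injEq] at h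
    obtain ⟨h1, h2, h3, h4⟩ := h
    have := determined P hX hY (F : Set Bx) (G : Set Bx) (hS F hF).2.1 (hS G hG).2.1 (same_of_image F G h1 h2 h3 h4)
      (same_of_image G F h1.symm h2.symm h3.symm h4.symm)
    exact coe_injective this

/-- `C(n,N) ≤ (e n / N)^N`. -/
theorem choose_le (n N : ℕ) (hN : 1 ≤ N) : ((n.choose N : ℕ) : ℝ) ≤ (Real.exp 1 * n / N) ^ N := by
  have h1 : ((n.choose N : ℕ) : ℝ) ≤ (n : ℝ) ^ N / (N.factorial : ℝ) := Nat.choose_le_pow_div N n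
  have h2 := Real.pow_div_factorial_le_exp (N : ℝ) (by positivity) N
  have hf : (0 : ℝ) < N.factorial := by exact_mod_cast Nat.factorial_pos N
  have hNp : (0 : ℝ) < N := by exact_mod_cast hN
  have h3 : (N : ℝ) ^ N ≤ Real.exp N * N.factorial := by
    rw [div_le_iff₀ hf] at h2
    exact h2
  refine h1.trans ?_
  rw [div_pow, mul_pow, ← Real.exp_nat_mul, mul_one, div_le_div_iff₀ hf (by positivity)]
  have := mul_le_mul_of_nonneg_left h3 (pow_nonneg (Nat.cast_nonneg (α := ℝ) n) N)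
  linarith

/-- `log C(n,N)^4 ≤ 4 N (1 + log (n / N))`. -/
theorem log_choose (n N : ℕ) (hN : 1 ≤ N) (hn : N ≤ n) : Real.log (((n.choose N) ^ 4 : ℕ) : ℝ) ≤ 4 * N * (1 + Real.log (n / N)) := by
  have hNp : (0 : ℝ) < N := by exact_mod_cast hN
  have hnp : (0 : ℝ) < n := by exact_mod_cast (lt_of_lt_of_le hN hn)
  have hc : (0 : ℝ) < (n.choose N : ℕ) := by exact_mod_cast Nat.choose_pos hn
  rw [Nat.cast_pow, Real.log_pow]
  have h1 := Real.log_le_log hc (choose_le n N hN)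
  rw [Real.log_pow, mul_div_assoc, Real.log_mul (Real.exp_pos 1).ne' (by positivity), Real.log_exp] at h1
  push_cast
  nlinarith

/-- GREEDY (counting form): `m` tokens leave at most the fraction `(1 - N/W)^m` of the families unhit. -/
theorem greedy_aux {ι ζ : Type*} [DecidableEq ζ] (Φ : Finset ι) (Z : Finset ζ) (U : ι → Finset ζ) (hU : ∀ f ∈ Φ, U f ⊆ Z)
    (w : ζ → ℝ) (hw : ∀ z ∈ Z, 0 ≤ w z) (N W : ℝ) (hN : 0 < N) (hNW : N ≤ W) (hW : ∑ z ∈ Z, w z ≤ W) (h : ∀ f ∈ Φ, N ≤ ∑ z ∈ U f, w z) (m : ℕ) :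
    ∃ V ⊆ Z, V.card ≤ m ∧ ∃ Ψ ⊆ Φ, (Ψ.card : ℝ) ≤ (1 - N / W) ^ m * Φ.card ∧ ∀ f ∈ Φ, f ∉ Ψ → ∃ z ∈ V, z ∈ U f := by
  classical
  have hWp : 0 < W := lt_of_lt_of_le hN hNW
  have h01 : 0 ≤ 1 - N / W := by
    have : N / W ≤ 1 := (div_le_one hWp).2 hNW
    linarith
  induction m with
  | zero => exact ⟨∅, empty_subset _, by simp, Φ, subset_rfl, by simp, fun f hf h => absurd hf h⟩
  | succ m ih =>
    obtain ⟨V, hVZ, hVc, Ψ, hΨ, hc, hhit⟩ := ih
    rcases Finset.eq_empty_or_nonempty Ψ with he | hne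
    · exact ⟨V, hVZ, by omega, Ψ, hΨ, by rw [he]; simp only [card_empty, Nat.cast_zero]; positivity, hhit⟩
    have hΨ0 : 0 < (Ψ.card : ℝ) := by exact_mod_cast hne.card_pos
    -- choose z hitting many of Ψ
    have hex : ∃ z ∈ Z, N / W * Ψ.card ≤ ((Ψ.filter (fun f => z ∈ U f)).card : ℝ) := by
      by_contra hcon
      push Not at hcon
      have hsw : ∑ z ∈ Z, w z * ((Ψ.filter (fun f => z ∈ U f)).card : ℝ) = ∑ f ∈ Ψ, ∑ z ∈ U f, w z := by
        have e1 : ∀ z ∈ Z, w z * ((Ψ.filter (fun f => z ∈ U f)).card : ℝ) = ∑ f ∈ Ψ, if z ∈ U f then w z else 0 := by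
          intro z _
          rw [← Finset.sum_filter, Finset.sum_const, nsmul_eq_mul, mul_comm]
        rw [Finset.sum_congr rfl e1, Finset.sum_comm]
        refine Finset.sum_congr rfl fun f hf => ?_
        rw [← Finset.sum_filter]
        refine Finset.sum_congr ?_ fun _ _ => rfl
        ext z
        simp only [mem_filter]
        exact ⟨fun h => h.2, fun h => ⟨hU f (hΨ hf) h, h⟩⟩
      have hlow : N * Ψ.card ≤ ∑ z ∈ Z, w z * ((Ψ.filter (fun f => z ∈ U f)).card : ℝ) := by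
        rw [hsw]
        have := Finset.sum_le_sum (s := Ψ) (f := fun _ => N) (g := fun f => ∑ z ∈ U f, w z) fun f hf => h f (hΨ hf)
        rwa [Finset.sum_const, nsmul_eq_mul, mul_comm] at this
      have hpos : 0 < ∑ z ∈ Z, w z * ((Ψ.filter (fun f => z ∈ U f)).card : ℝ) := lt_of_lt_of_le (mul_pos hN hΨ0) hlow
      obtain ⟨z, hz, hzp⟩ := Finset.exists_lt_of_sum_lt (f := fun _ => (0 : ℝ)) (s := Z) (by simpa using hpos)
      have hwz : 0 < w z := by
        rcases (hw z hz).lt_or_eq with h1 | h1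
        · exact h1
        · rw [← h1] at hzp
          simp at hzp
      have hlt : ∑ z ∈ Z, w z * ((Ψ.filter (fun f => z ∈ U f)).card : ℝ) < ∑ z ∈ Z, w z * (N / W * Ψ.card) :=
        Finset.sum_lt_sum (fun z hz => mul_le_mul_of_nonneg_left (hcon z hz).le (hw z hz)) ⟨z, hz, mul_lt_mul_of_pos_left (hcon z hz) hwz⟩
      rw [← Finset.sum_mul] at hlt
      have h5 : (∑ z ∈ Z, w z) * (N / W * Ψ.card) ≤ W * (N / W * Ψ.card) := mul_le_mul_of_nonneg_right hW (by positivity)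
      have h6 : W * (N / W * Ψ.card) = N * Ψ.card := by field_simp
      linarith
    obtain ⟨z, hz, hzc⟩ := hex
    refine ⟨insert z V, insert_subset hz hVZ, (card_insert_le _ _).trans (by omega), Ψ.filter (fun f => z ∉ U f), (filter_subset _ _).trans hΨ, ?_, ?_⟩
    · have h1 : (Ψ.filter (fun f => z ∈ U f)).card + (Ψ.filter (fun f => z ∉ U f)).card = Ψ.card :=
        Finset.card_filter_add_card_filter_not _
      have h2 : ((Ψ.filter (fun f => z ∉ U f)).card : ℝ) = Ψ.card - (Ψ.filter (fun f => z ∈ U f)).card := by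
        rw [← h1]; push_cast; ring
      rw [h2, pow_succ]
      have h3 : (1 - N / W) * Ψ.card ≤ (1 - N / W) * ((1 - N / W) ^ m * Φ.card) := mul_le_mul_of_nonneg_left hc h01
      nlinarith
    · intro f hf hf2
      by_cases hfΨ : f ∈ Ψ
      · have : z ∈ U f := by
          by_contra hzf
          exact hf2 (mem_filter.2 ⟨hfΨ, hzf⟩)
        exact ⟨z, mem_insert_self _ _, this⟩
      · obtain ⟨v, hv, hvf⟩ := hhit f hf hfΨ
        exact ⟨v, mem_insert_of_mem hv, hvf⟩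

/-- GREEDY: `m ≥ (W/N) log #Φ` tokens (rounded up) hit all families. -/
theorem greedy {ι ζ : Type*} [DecidableEq ζ] (Φ : Finset ι) (Z : Finset ζ) (U : ι → Finset ζ) (hU : ∀ f ∈ Φ, U f ⊆ Z)
    (w : ζ → ℝ) (hw : ∀ z ∈ Z, 0 ≤ w z) (N W L : ℝ) (hN : 0 < N) (hW : ∑ z ∈ Z, w z ≤ W) (h : ∀ f ∈ Φ, N ≤ ∑ z ∈ U f, w z)
    (hL : Real.log Φ.card ≤ L) (hW0 : 0 ≤ W) (hL0 : 0 ≤ L) :
    ∃ V ⊆ Z, (V.card : ℝ) ≤ W / N * L + 1 ∧ ∀ f ∈ Φ, ∃ z ∈ V, z ∈ U f := by
  classical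
  rcases Finset.eq_empty_or_nonempty Φ with he | ⟨f₀, hf₀⟩
  · exact ⟨∅, empty_subset _, by simp; positivity, by simp [he]⟩
  have hNW : N ≤ W := by
    refine (h f₀ hf₀).trans (le_trans ?_ hW)
    exact Finset.sum_le_sum_of_subset_of_nonneg (hU f₀ hf₀) fun z hz _ => hw z hz
  have hWp : 0 < W := lt_of_lt_of_le hN hNW
  have hΦ : 0 < (Φ.card : ℝ) := by exact_mod_cast (Finset.card_pos.2 ⟨f₀, hf₀⟩)
  obtain ⟨V, hVZ, hVc, Ψ, hΨ, hc, hhit⟩ := greedy_aux Φ Z U hU w hw N W hN hNW hW h (⌊W / N * L⌋₊ + 1)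
  refine ⟨V, hVZ, ?_, ?_⟩
  · have h1 : ((V.card : ℕ) : ℝ) ≤ (⌊W / N * L⌋₊ : ℝ) + 1 := by exact_mod_cast hVc
    have h2 := Nat.floor_le (show 0 ≤ W / N * L by positivity)
    linarith
  · have hlt : (1 - N / W) ^ (⌊W / N * L⌋₊ + 1) * (Φ.card : ℝ) < 1 := by
      have h1 : 1 - N / W ≤ Real.exp (-(N / W)) := by
        have := Real.add_one_le_exp (-(N / W))
        linarith
      have h01 : 0 ≤ 1 - N / W := by
        have : N / W ≤ 1 := (div_le_one hWp).2 hNW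
        linarith
      have h2 : (1 - N / W) ^ (⌊W / N * L⌋₊ + 1) ≤ Real.exp (-(N / W) * ((⌊W / N * L⌋₊ : ℝ) + 1)) := by
        calc (1 - N / W) ^ (⌊W / N * L⌋₊ + 1) ≤ (Real.exp (-(N / W))) ^ (⌊W / N * L⌋₊ + 1) := pow_le_pow_left₀ h01 h1 _
          _ = _ := by
            rw [← Real.exp_nat_mul]
            congr 1
            push_cast
            ring
      have h3 : W / N * L < (⌊W / N * L⌋₊ : ℝ) + 1 := Nat.lt_floor_add_one _
      have h4 : L < N / W * ((⌊W / N * L⌋₊ : ℝ) + 1) := by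
        have h5 := mul_lt_mul_of_pos_left h3 (div_pos hN hWp)
        have h6 : N / W * (W / N * L) = L := by field_simp
        rwa [h6] at h5
      have h7 : (Φ.card : ℝ) = Real.exp (Real.log Φ.card) := (Real.exp_log hΦ).symm
      calc (1 - N / W) ^ (⌊W / N * L⌋₊ + 1) * (Φ.card : ℝ)
          ≤ Real.exp (-(N / W) * ((⌊W / N * L⌋₊ : ℝ) + 1)) * Real.exp (Real.log Φ.card) := by
            rw [← h7]
            exact mul_le_mul_of_nonneg_right h2 hΦ.le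
        _ = Real.exp (-(N / W) * ((⌊W / N * L⌋₊ : ℝ) + 1) + Real.log Φ.card) := (Real.exp_add _ _).symm
        _ < 1 := by
          rw [Real.exp_lt_one_iff]; nlinarith
    have h8 : (Ψ.card : ℝ) < 1 := lt_of_le_of_lt hc hlt
    have h9 : Ψ.card = 0 := by
      have : Ψ.card < 1 := by exact_mod_cast h8
      omega
    have h10 : Ψ = ∅ := Finset.card_eq_zero.1 h9
    intro f hf
    exact hhit f hf (by rw [h10]; simp)

end HRC
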