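import Pool.Agent.helper78.HR.Defs

/-!
HR project (MP_58257a_co, S08871), row DE (helper22): a family of pairwise disjoint tight boxes is determined by its
four sets of left, right, bottom and top points. Sweep over the columns.
-/

set_option autoImplicit false

namespace Pool.Agent.helper78.HR

open Finset

/-- the claim at the column `X`. -/
def hrDE_S {ι : Type*} (x : ι → ℤ) (F G : Finset (Fm ι)) (X : ℤ) : Prop := ∀ f ∈ F, ∀ f' ∈ G, f.1 = f'.1 →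
  (x f.2.1 ≤ X → f'.2.1 = f.2.1) ∧ (x f.2.2.1 ≤ X → f'.2.2.1 = f.2.2.1) ∧ (x f.2.2.2 ≤ X → f'.2.2.2 = f.2.2.2)

theorem hrDE_dj {ι : Type*} {x y : ι → ℤ} {F : Finset (Fm ι)} (hF : Disj x y F) {f g : Fm ι} (hf : f ∈ F) (hg : g ∈ F)
    (z : ℤ × ℤ) (h1 : In x y f z) (h2 : In x y g z) : f = g := by
  by_contra hne
  exact hF f hf g hg hne z ⟨h1, h2⟩

theorem hrDE_step {ι : Type*} (x y : ι → ℤ) (_hx : Function.Injective x)
    (hy : Function.Injective y) (F G : Finset (Fm ι))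
    (hF : ∀ f ∈ F, Fr x y f) (hG : ∀ f ∈ G, Fr x y f) (dF : Disj x y F) (dG : Disj x y G)
    (gl : ∀ f ∈ G, ∃ g ∈ F, g.1 = f.1) (er : ∀ f ∈ F, ∃ g ∈ G, g.2.1 = f.2.1)
    (eb : ∀ f ∈ F, ∃ g ∈ G, g.2.2.1 = f.2.2.1) (et : ∀ f ∈ F, ∃ g ∈ G, g.2.2.2 = f.2.2.2) (X : ℤ)
    (ih : ∀ X' < X, hrDE_S x F G X' ∧ hrDE_S x G F X') : hrDE_S x F G X := by
  intro R hR R' hR' hl
  obtain ⟨⟨a1, a2, a3, a4⟩, ⟨p1, p2, p3, p4⟩, ⟨u1, u2, u3, u4⟩, ⟨v1, v2, v3, v4⟩⟩ := hF R hR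
  obtain ⟨⟨a1', a2', a3', a4'⟩, -, -, -⟩ := hG R' hR'
  rw [← hl] at a1' a2' a3' a4'
  simp only at a1 a2 a3 a4 p1 p2 p3 p4 u1 u2 u3 u4 v1 v2 v3 v4 a1' a2' a3' a4'
  have pair : ∀ Q ∈ F, ∀ Q' ∈ G, Q.1 = Q'.1 → Q' ≠ R' → Q ≠ R ∧ y Q.1 ≠ y R.1 := by
    intro Q hQ Q' hQ' hl2 hne
    have h1 : y Q.1 ≠ y R.1 := by
      intro h
      have h2 : Q.1 = R.1 := hy h
      apply hne
      apply hrDE_dj dG hQ' hR' (x Q'.1, y Q'.1) (hG Q' hQ').1
      rw [← hl2, h2, hl]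
      exact (hG R' hR').1
    exact ⟨fun h => h1 (by rw [h]), h1⟩
  have hb : x R.2.2.1 ≤ X → R'.2.2.1 = R.2.2.1 := by
    intro hpx
    rcases lt_or_ge (x R.2.2.1) X with hlt | hge
    · exact ((ih _ hlt).1 R hR R' hR' hl).2.1 le_rfl
    have hX : x R.2.2.1 = X := le_antisymm hpx hge
    obtain ⟨Q', hQ', hQb⟩ := eb R hR
    obtain ⟨Q, hQ, hQl⟩ := gl Q' hQ'
    by_cases hne : Q' = R'
    · rw [← hne]; exact hQb
    exfalso
    obtain ⟨hne2, hca⟩ := pair Q hQ Q' hQ' hQl hne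
    obtain ⟨⟨c1, c2, c3, c4⟩, -, -, -⟩ := hF Q hQ
    obtain ⟨⟨c1', c2', c3', c4'⟩, -, ⟨q1, q2, q3, q4⟩, -⟩ := hG Q' hQ'
    rw [← hQl] at c1' c2' c3' c4'
    rw [hQb] at q1 q2 q3 q4
    simp only at c1 c2 c3 c4 c1' c2' c3' c4' q1 q2 q3 q4
    have hbx : y Q'.2.2.1 = y R.2.2.1 := by rw [hQb]
    have hxl : x Q.1 = x Q'.1 := by rw [hQl]
    have hxl' : x R.1 = x R'.1 := by rw [hl]
    have e1 : X ≤ x Q.2.1 := by
      by_contra hc
      have h1 := ((ih (x Q.2.1) (by omega)).1 Q hQ Q' hQ' hQl).1 le_rfl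
      rw [h1] at q2
      omega
    have e2 : X ≤ x R'.2.1 := by
      by_contra hc
      have h1 := ((ih (x R'.2.1) (by omega)).2 R' hR' R hR hl.symm).1 le_rfl
      rw [h1] at u2
      omega
    rcases lt_or_ge (y R.1) (y Q.1) with h | h
    · exact hne (hrDE_dj dG hQ' hR' (X, y R.1) ⟨by show x Q'.1 ≤ X; omega, by show X ≤ x Q'.2.1; omega, by show y Q'.2.2.1 ≤ y R.1; omega, by show y R.1 ≤ y Q'.2.2.2; omega⟩
        ⟨by show x R'.1 ≤ X; omega, by show X ≤ x R'.2.1; omega, by show y R'.2.2.1 ≤ y R.1; omega, by show y R.1 ≤ y R'.2.2.2; omega⟩)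
    · exact hne2 (hrDE_dj dF hQ hR (X, y Q.1) ⟨by show x Q.1 ≤ X; omega, by show X ≤ x Q.2.1; omega, by show y Q.2.2.1 ≤ y Q.1; omega, by show y Q.1 ≤ y Q.2.2.2; omega⟩
        ⟨by show x R.1 ≤ X; omega, by show X ≤ x R.2.1; omega, by show y R.2.2.1 ≤ y Q.1; omega, by show y Q.1 ≤ y R.2.2.2; omega⟩)
  have ht : x R.2.2.2 ≤ X → R'.2.2.2 = R.2.2.2 := by
    intro hpx
    rcases lt_or_ge (x R.2.2.2) X with hlt | hge
    · exact ((ih _ hlt).1 R hR R' hR' hl).2.2 le_rfl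
    have hX : x R.2.2.2 = X := le_antisymm hpx hge
    obtain ⟨Q', hQ', hQb⟩ := et R hR
    obtain ⟨Q, hQ, hQl⟩ := gl Q' hQ'
    by_cases hne : Q' = R'
    · rw [← hne]; exact hQb
    exfalso
    obtain ⟨hne2, hca⟩ := pair Q hQ Q' hQ' hQl hne
    obtain ⟨⟨c1, c2, c3, c4⟩, -, -, -⟩ := hF Q hQ
    obtain ⟨⟨c1', c2', c3', c4'⟩, -, -, ⟨q1, q2, q3, q4⟩⟩ := hG Q' hQ'
    rw [← hQl] at c1' c2' c3' c4'
    rw [hQb] at q1 q2 q3 q4
    simp only at c1 c2 c3 c4 c1' c2' c3' c4' q1 q2 q3 q4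
    have hbx : y Q'.2.2.2 = y R.2.2.2 := by rw [hQb]
    have hxl : x Q.1 = x Q'.1 := by rw [hQl]
    have hxl' : x R.1 = x R'.1 := by rw [hl]
    have e1 : X ≤ x Q.2.1 := by
      by_contra hc
      have h1 := ((ih (x Q.2.1) (by omega)).1 Q hQ Q' hQ' hQl).1 le_rfl
      rw [h1] at q2
      omega
    have e2 : X ≤ x R'.2.1 := by
      by_contra hc
      have h1 := ((ih (x R'.2.1) (by omega)).2 R' hR' R hR hl.symm).1 le_rfl
      rw [h1] at v2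
      omega
    rcases lt_or_ge (y R.1) (y Q.1) with h | h
    · exact hne2 (hrDE_dj dF hQ hR (X, y Q.1) ⟨by show x Q.1 ≤ X; omega, by show X ≤ x Q.2.1; omega, by show y Q.2.2.1 ≤ y Q.1; omega, by show y Q.1 ≤ y Q.2.2.2; omega⟩
        ⟨by show x R.1 ≤ X; omega, by show X ≤ x R.2.1; omega, by show y R.2.2.1 ≤ y Q.1; omega, by show y Q.1 ≤ y R.2.2.2; omega⟩)
    · exact hne (hrDE_dj dG hQ' hR' (X, y R.1) ⟨by show x Q'.1 ≤ X; omega, by show X ≤ x Q'.2.1; omega, by show y Q'.2.2.1 ≤ y R.1; omega, by show y R.1 ≤ y Q'.2.2.2; omega⟩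
        ⟨by show x R'.1 ≤ X; omega, by show X ≤ x R'.2.1; omega, by show y R'.2.2.1 ≤ y R.1; omega, by show y R.1 ≤ y R'.2.2.2; omega⟩)
  refine ⟨?_, hb, ht⟩
  intro hrx
  rcases lt_or_ge (x R.2.1) X with hlt | hge
  · exact ((ih _ hlt).1 R hR R' hR' hl).1 le_rfl
  have hX : x R.2.1 = X := le_antisymm hrx hge
  obtain ⟨Q', hQ', hQr⟩ := er R hR
  obtain ⟨Q, hQ, hQl⟩ := gl Q' hQ'
  by_cases hne : Q' = R'
  · rw [← hne]; exact hQr
  exfalso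
  obtain ⟨hne2, hca⟩ := pair Q hQ Q' hQ' hQl hne
  obtain ⟨⟨c1, c2, c3, c4⟩, -, -, -⟩ := hF Q hQ
  obtain ⟨⟨c1', c2', c3', c4'⟩, ⟨q1, q2, q3, q4⟩, -, -⟩ := hG Q' hQ'
  rw [← hQl] at c1' c2' c3' c4'
  rw [hQr] at q1 q2 q3 q4
  simp only at c1 c2 c3 c4 c1' c2' c3' c4' q1 q2 q3 q4
  have hxr : x Q'.2.1 = x R.2.1 := by rw [hQr]
  have hxl : x Q.1 = x Q'.1 := by rw [hQl]
  have hxl' : x R.1 = x R'.1 := by rw [hl]
  have e1 : X ≤ x Q.2.1 := by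
    by_contra hc
    have h1 := ((ih (x Q.2.1) (by omega)).1 Q hQ Q' hQ' hQl).1 le_rfl
    rw [← h1] at hc
    omega
  have e2 : X ≤ x R'.2.1 := by
    by_contra hc
    have h1 := ((ih (x R'.2.1) (by omega)).2 R' hR' R hR hl.symm).1 le_rfl
    rw [h1] at hX
    omega
  have cG : ∀ Y, y R'.2.2.1 ≤ Y → Y ≤ y R'.2.2.2 → y Q'.2.2.1 ≤ Y → Y ≤ y Q'.2.2.2 → False := fun Y h1 h2 h3 h4 =>
    hne (hrDE_dj dG hQ' hR' (X, Y) ⟨by show x Q'.1 ≤ X; omega, by show X ≤ x Q'.2.1; omega, h3, h4⟩ ⟨by show x R'.1 ≤ X; omega, by show X ≤ x R'.2.1; omega, h1, h2⟩)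
  have cF : ∀ Y, y R.2.2.1 ≤ Y → Y ≤ y R.2.2.2 → y Q.2.2.1 ≤ Y → Y ≤ y Q.2.2.2 → False := fun Y h1 h2 h3 h4 =>
    hne2 (hrDE_dj dF hQ hR (X, Y) ⟨by show x Q.1 ≤ X; omega, by show X ≤ x Q.2.1; omega, h3, h4⟩ ⟨by show x R.1 ≤ X; omega, by show X ≤ x R.2.1; omega, h1, h2⟩)
  rcases lt_or_ge (y R.1) (y Q.1) with h | h
  · rcases lt_or_ge (y R.1) (y R.2.1) with h1 | h1
    · rcases lt_or_ge (y R.2.1) (y Q.1) with h2 | h2
      · have h3 := ht (by omega)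
        refine cG (y R.2.1) (by omega) ?_ (by omega) (by omega)
        rw [h3]; omega
      · exact cF (y Q.1) (by omega) (by omega) (by omega) (by omega)
    · exact cG (y R.1) (by omega) (by omega) (by omega) (by omega)
  · rcases lt_or_ge (y R.2.1) (y R.1) with h1 | h1
    · rcases lt_or_ge (y Q.1) (y R.2.1) with h2 | h2
      · have h3 := hb (by omega)
        refine cG (y R.2.1) ?_ (by omega) (by omega) (by omega)
        rw [h3]; omega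
      · exact cF (y Q.1) (by omega) (by omega) (by omega) (by omega)
    · exact cG (y R.1) (by omega) (by omega) (by omega) (by omega)

theorem hrDE_img {ι κ : Type*} [DecidableEq κ] (F G : Finset (Fm ι)) (p : Fm ι → κ) (h : F.image p = G.image p) :
    ∀ f ∈ F, ∃ g ∈ G, p g = p f := by
  intro f hf
  have h1 : p f ∈ G.image p := by rw [← h]; exact mem_image_of_mem _ hf
  obtain ⟨g, hg, hgf⟩ := mem_image.1 h1
  exact ⟨g, hg, hgf⟩

theorem hrDE_all {ι : Type*} [DecidableEq ι] (x y : ι → ℤ) (hx : Function.Injective x)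
    (hy : Function.Injective y) (D1 D2 : Finset (Fm ι))
    (h1 : ∀ f ∈ D1, Fr x y f) (h2 : ∀ f ∈ D2, Fr x y f) (d1 : Disj x y D1) (d2 : Disj x y D2)
    (e1 : D1.image (fun f => f.1) = D2.image (fun f => f.1))
    (e2 : D1.image (fun f => f.2.1) = D2.image (fun f => f.2.1))
    (e3 : D1.image (fun f => f.2.2.1) = D2.image (fun f => f.2.2.1))
    (e4 : D1.image (fun f => f.2.2.2) = D2.image (fun f => f.2.2.2)) (m : ℤ)
    (hm : ∀ f ∈ D1 ∪ D2, m ≤ x f.2.1 ∧ m ≤ x f.2.2.1 ∧ m ≤ x f.2.2.2) :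
    ∀ n : ℕ, ∀ X : ℤ, X < m + n → hrDE_S x D1 D2 X ∧ hrDE_S x D2 D1 X := by
  intro n
  induction n with
  | zero =>
    intro X hX
    have hX' : X < m := by simpa using hX
    refine ⟨fun f hf f' hf' _ => ?_, fun f hf f' hf' _ => ?_⟩
    · obtain ⟨a, b, c⟩ := hm f (mem_union_left _ hf)
      exact ⟨fun h => by omega, fun h => by omega, fun h => by omega⟩
    · obtain ⟨a, b, c⟩ := hm f (mem_union_right _ hf)
      exact ⟨fun h => by omega, fun h => by omega, fun h => by omega⟩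
  | succ n ih =>
    intro X hX
    push_cast at hX
    have ih' : ∀ X' < X, hrDE_S x D1 D2 X' ∧ hrDE_S x D2 D1 X' := fun X' h => ih X' (by omega)
    exact ⟨hrDE_step x y hx hy D1 D2 h1 h2 d1 d2 (hrDE_img D2 D1 _ e1.symm) (hrDE_img D1 D2 _ e2) (hrDE_img D1 D2 _ e3) (hrDE_img D1 D2 _ e4) X ih',
      hrDE_step x y hx hy D2 D1 h2 h1 d2 d1 (hrDE_img D1 D2 _ e1) (hrDE_img D2 D1 _ e2.symm) (hrDE_img D2 D1 _ e3.symm) (hrDE_img D2 D1 _ e4.symm) X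
        (fun X' h => (ih' X' h).symm)⟩

/-- row DE (step 2). A family of pairwise disjoint tight boxes is determined by the sets of its left,
right, bottom and top points. -/
theorem decode {ι : Type*} [DecidableEq ι] (x y : ι → ℤ) (hx : Function.Injective x)
    (hy : Function.Injective y) (D1 D2 : Finset (Fm ι))
    (h1 : ∀ f ∈ D1, Fr x y f) (h2 : ∀ f ∈ D2, Fr x y f) (d1 : Disj x y D1) (d2 : Disj x y D2)
    (e1 : D1.image (fun f => f.1) = D2.image (fun f => f.1))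
    (e2 : D1.image (fun f => f.2.1) = D2.image (fun f => f.2.1))
    (e3 : D1.image (fun f => f.2.2.1) = D2.image (fun f => f.2.2.1))
    (e4 : D1.image (fun f => f.2.2.2) = D2.image (fun f => f.2.2.2)) : D1 = D2 := by
  obtain ⟨m, hm⟩ : ∃ m : ℤ, ∀ f ∈ D1 ∪ D2, m ≤ x f.2.1 ∧ m ≤ x f.2.2.1 ∧ m ≤ x f.2.2.2 := by
    induction (D1 ∪ D2) using Finset.induction_on with
    | empty => exact ⟨0, by simp⟩
    | insert a s _ ih =>
      obtain ⟨m, hm⟩ := ih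
      refine ⟨min m (min (x a.2.1) (min (x a.2.2.1) (x a.2.2.2))), fun f hf => ?_⟩
      rcases mem_insert.1 hf with h | h
      · subst h
        omega
      · have := hm f h
        omega
  have key : ∀ X : ℤ, hrDE_S x D1 D2 X ∧ hrDE_S x D2 D1 X := fun X =>
    hrDE_all x y hx hy D1 D2 h1 h2 d1 d2 e1 e2 e3 e4 m hm ((X - m).toNat + 1) X (by push_cast; omega)
  have sub : ∀ (F G : Finset (Fm ι)), (∀ X, hrDE_S x F G X) → (∀ f ∈ F, ∃ g ∈ G, g.1 = f.1) → F ⊆ G := by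
    intro F G hk hl f hf
    obtain ⟨g, hg, hgf⟩ := hl f hf
    have a := (hk (x f.2.1) f hf g hg hgf.symm).1 le_rfl
    have b := (hk (x f.2.2.1) f hf g hg hgf.symm).2.1 le_rfl
    have c := (hk (x f.2.2.2) f hf g hg hgf.symm).2.2 le_rfl
    have : g = f := Prod.ext hgf (Prod.ext a (Prod.ext b c))
    rw [← this]; exact hg
  exact Finset.Subset.antisymm (sub D1 D2 (fun X => (key X).1) (hrDE_img D1 D2 _ e1)) (sub D2 D1 (fun X => (key X).2) (hrDE_img D2 D1 _ e1.symm))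

end Pool.Agent.helper78.HR
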