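import Mathlib

/-!
HR project (MP_58257a_co, S08871), row GR (helper22): the greedy hitting set.
-/

set_option autoImplicit false

namespace Pool.Agent.helper78.HR

open Finset

theorem hrGR_aux {U Z : Type*} [DecidableEq U] [DecidableEq Z] (F : Finset U) (G : Finset Z)
    (S : U → Z → Prop) [∀ u z, Decidable (S u z)] (c : Z → ℝ) (hc : ∀ z, 0 ≤ c z)
    (W N : ℝ) (hN : 0 < N) (hNW : N ≤ W) (hW : ∑ z ∈ G, c z ≤ W)
    (hS : ∀ u ∈ F, N ≤ ∑ z ∈ G.filter (fun z => S u z), c z) (m : ℕ) :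
    ∃ V ⊆ G, V.card ≤ m ∧ ∃ Ψ ⊆ F, (Ψ.card : ℝ) ≤ (1 - N / W) ^ m * F.card ∧ ∀ f ∈ F, f ∉ Ψ → ∃ z ∈ V, S f z := by
  have hWp : 0 < W := lt_of_lt_of_le hN hNW
  have h01 : 0 ≤ 1 - N / W := by
    have : N / W ≤ 1 := (div_le_one hWp).2 hNW
    linarith
  induction m with
  | zero => exact ⟨∅, empty_subset _, by simp, F, subset_rfl, by simp, fun f hf h => absurd hf h⟩
  | succ m ih =>
    obtain ⟨V, hVZ, hVc, Ψ, hΨ, hcc, hhit⟩ := ih
    rcases Finset.eq_empty_or_nonempty Ψ with he | hne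
    · exact ⟨V, hVZ, by omega, Ψ, hΨ, by rw [he]; simp only [card_empty, Nat.cast_zero]; positivity, hhit⟩
    have hΨ0 : 0 < (Ψ.card : ℝ) := by exact_mod_cast hne.card_pos
    have hex : ∃ z ∈ G, N / W * Ψ.card ≤ ((Ψ.filter (fun f => S f z)).card : ℝ) := by
      by_contra hcon
      push Not at hcon
      have hsw : ∑ z ∈ G, c z * ((Ψ.filter (fun f => S f z)).card : ℝ) = ∑ f ∈ Ψ, ∑ z ∈ G.filter (fun z => S f z), c z := by
        have e1 : ∀ z ∈ G, c z * ((Ψ.filter (fun f => S f z)).card : ℝ) = ∑ f ∈ Ψ, if S f z then c z else 0 := by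
          intro z _
          rw [← Finset.sum_filter, Finset.sum_const, nsmul_eq_mul, mul_comm]
        rw [Finset.sum_congr rfl e1, Finset.sum_comm]
        refine Finset.sum_congr rfl fun f hf => ?_
        rw [← Finset.sum_filter]
      have hlow : N * Ψ.card ≤ ∑ z ∈ G, c z * ((Ψ.filter (fun f => S f z)).card : ℝ) := by
        rw [hsw]
        have := Finset.sum_le_sum (s := Ψ) (f := fun _ => N) (g := fun f => ∑ z ∈ G.filter (fun z => S f z), c z) fun f hf => hS f (hΨ hf)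
        rwa [Finset.sum_const, nsmul_eq_mul, mul_comm] at this
      have hpos : 0 < ∑ z ∈ G, c z * ((Ψ.filter (fun f => S f z)).card : ℝ) := lt_of_lt_of_le (mul_pos hN hΨ0) hlow
      obtain ⟨z, hz, hzp⟩ := Finset.exists_lt_of_sum_lt (f := fun _ => (0 : ℝ)) (s := G) (by simpa using hpos)
      have hwz : 0 < c z := by
        rcases (hc z).lt_or_eq with h1 | h1
        · exact h1
        · rw [← h1] at hzp
          simp at hzp
      have hlt : ∑ z ∈ G, c z * ((Ψ.filter (fun f => S f z)).card : ℝ) < ∑ z ∈ G, c z * (N / W * Ψ.card) :=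
        Finset.sum_lt_sum (fun z hz => mul_le_mul_of_nonneg_left (hcon z hz).le (hc z)) ⟨z, hz, mul_lt_mul_of_pos_left (hcon z hz) hwz⟩
      rw [← Finset.sum_mul] at hlt
      have h5 : (∑ z ∈ G, c z) * (N / W * Ψ.card) ≤ W * (N / W * Ψ.card) := mul_le_mul_of_nonneg_right hW (by positivity)
      have h6 : W * (N / W * Ψ.card) = N * Ψ.card := by field_simp
      linarith
    obtain ⟨z, hz, hzc⟩ := hex
    refine ⟨insert z V, insert_subset hz hVZ, (card_insert_le _ _).trans (by omega), Ψ.filter (fun f => ¬ S f z), (filter_subset _ _).trans hΨ, ?_, ?_⟩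
    · have h1 : (Ψ.filter (fun f => S f z)).card + (Ψ.filter (fun f => ¬ S f z)).card = Ψ.card :=
        Finset.card_filter_add_card_filter_not _
      have h2 : ((Ψ.filter (fun f => ¬ S f z)).card : ℝ) = Ψ.card - (Ψ.filter (fun f => S f z)).card := by
        rw [← h1]; push_cast; ring
      rw [h2, pow_succ]
      have h3 : (1 - N / W) * Ψ.card ≤ (1 - N / W) * ((1 - N / W) ^ m * F.card) := mul_le_mul_of_nonneg_left hcc h01
      nlinarith
    · intro f hf hf2
      by_cases hfΨ : f ∈ Ψ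
      · have : S f z := by
          by_contra hzf
          exact hf2 (mem_filter.2 ⟨hfΨ, hzf⟩)
        exact ⟨z, mem_insert_self _ _, this⟩
      · obtain ⟨v, hv, hvf⟩ := hhit f hf hfΨ
        exact ⟨v, mem_insert_of_mem hv, hvf⟩

/-- row GR (abstract, step 3). Greedy hitting set. -/
theorem greedy {U Z : Type*} [DecidableEq U] [DecidableEq Z] (F : Finset U) (G : Finset Z)
    (S : U → Z → Prop) [∀ u z, Decidable (S u z)] (c : Z → ℝ) (hc : ∀ z, 0 ≤ c z)
    (W N : ℝ) (hN : 0 < N) (hNW : N ≤ W) (hW : ∑ z ∈ G, c z ≤ W)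
    (hS : ∀ u ∈ F, N ≤ ∑ z ∈ G.filter (fun z => S u z), c z)
    (m : ℕ) (hm : (F.card : ℝ) * (1 - N / W) ^ m < 1) :
    ∃ V1 ⊆ G, V1.card ≤ m ∧ ∀ u ∈ F, ∃ z ∈ V1, S u z := by
  obtain ⟨V, hVZ, hVc, Ψ, hΨ, hcc, hhit⟩ := hrGR_aux F G S c hc W N hN hNW hW hS m
  refine ⟨V, hVZ, hVc, ?_⟩
  have h8 : (Ψ.card : ℝ) < 1 := lt_of_le_of_lt (by rw [mul_comm] at hcc; exact hcc) hm
  have h9 : Ψ.card = 0 := by
    have : Ψ.card < 1 := by exact_mod_cast h8
    omega
  have h10 : Ψ = ∅ := Finset.card_eq_zero.1 h9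
  intro f hf
  exact hhit f hf (by rw [h10]; simp)

end Pool.Agent.helper78.HR
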